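import Pool.Graph.R_seed8.TH101.RG.Cov
import Pool.Graph.R_seed8.Helper923.PNT

set_option autoImplicit false
set_option maxHeartbeats 4000000

/-! # Auxiliary facts: blocks of primes, free classes, the number of the large primes -/

namespace Pool.Agent.H526.IR

open Finset Filter

open scoped Classical

/-- a finite set contains disjoint blocks of a given size, one for each colour -/
theorem blocks {κ : Type} [Fintype κ] (G : Finset ℕ) (L : ℕ) (h : Fintype.card κ * L ≤ G.card) :
    ∃ col : ℕ → Option κ, ∀ c : κ, L ≤ (G.filter fun q => col q = some c).card := by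
  set e := G.equivFin with he
  set f := Fintype.equivFin κ with hf
  refine ⟨fun q => if hq : q ∈ G then (if hi : (e ⟨q, hq⟩ : ℕ) / L < Fintype.card κ then
    some (f.symm ⟨(e ⟨q, hq⟩ : ℕ) / L, hi⟩) else none) else none, fun c => ?_⟩
  rcases Nat.eq_zero_or_pos L with hL | hL
  · omega
  have hlt : ∀ r : Fin L, (f c : ℕ) * L + r < G.card := by
    intro r
    have h1 : (f c : ℕ) + 1 ≤ Fintype.card κ := (f c).2
    have h2 : ((f c : ℕ) + 1) * L ≤ Fintype.card κ * L := Nat.mul_le_mul_right L h1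
    have h3 : ((f c : ℕ) + 1) * L = (f c : ℕ) * L + L := by ring
    have := r.2
    omega
  have hdiv : ∀ r : Fin L, ((f c : ℕ) * L + r) / L = f c := by
    intro r
    rw [Nat.div_eq_of_lt_le]
    · exact Nat.le_add_right _ _
    · have := r.2
      have h3 : ((f c : ℕ) + 1) * L = (f c : ℕ) * L + L := by ring
      omega
  have hinj : Function.Injective (fun r : Fin L => ((e.symm ⟨(f c : ℕ) * L + r, hlt r⟩ : {x // x ∈ G}) : ℕ)) := by
    intro r r' hrr
    have h1 := e.symm.injective (Subtype.ext hrr)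
    simp only [Fin.mk.injEq] at h1
    exact Fin.ext (by omega)
  calc L = (univ : Finset (Fin L)).card := by simp
    _ = (univ.image (fun r : Fin L => ((e.symm ⟨(f c : ℕ) * L + r, hlt r⟩ : {x // x ∈ G}) : ℕ))).card :=
        (card_image_of_injective _ hinj).symm
    _ ≤ _ := by
        apply card_le_card
        intro q hq
        rw [mem_image] at hq
        obtain ⟨r, -, rfl⟩ := hq
        rw [mem_filter]
        have hm := (e.symm ⟨(f c : ℕ) * L + r, hlt r⟩).2
        refine ⟨hm, ?_⟩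
        beta_reduce
        rw [dif_pos hm]
        have h1 : e ⟨(e.symm ⟨(f c : ℕ) * L + r, hlt r⟩ : {x // x ∈ G}), hm⟩ = ⟨(f c : ℕ) * L + r, hlt r⟩ := by
          simp
        rw [h1]
        simp only [hdiv r]
        rw [dif_pos (f c).2]
        simp

/-- disjoint blocks of a given size -/
theorem blocks' {κ : Type} [Fintype κ] (G : Finset ℕ) (L : ℕ) (h : Fintype.card κ * L ≤ G.card) :
    ∃ blk : κ → Finset ℕ, (∀ c, blk c ⊆ G) ∧ (∀ c, L ≤ (blk c).card) ∧
      ∀ c c' q, q ∈ blk c → q ∈ blk c' → c = c' := by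
  obtain ⟨col, hcol⟩ := blocks G L h
  refine ⟨fun c => G.filter fun q => col q = some c, fun c => filter_subset _ _, hcol, ?_⟩
  intro c c' q h1 h2
  have h3 := (mem_filter.1 h1).2
  have h4 := (mem_filter.1 h2).2
  rw [h3] at h4
  exact Option.some.inj h4

/-- a residue class which avoids given ones -/
theorem class_free (K p : ℕ) (hp : p.Prime) (T : Fin K → ℕ)
    (h : K < p ∨ ∀ j j', T j ≡ T j' [MOD p]) : ∃ α : ℕ, ∀ j, ¬ p ∣ α + T j := by
  rcases h with h | h
  · have h1 : (univ.image (fun j : Fin K => (p - T j % p) % p)).card < (range p).card := by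
      refine lt_of_le_of_lt card_image_le ?_
      rw [card_univ, Fintype.card_fin, card_range]
      exact h
    obtain ⟨α, hα, hα2⟩ := exists_mem_notMem_of_card_lt_card h1
    refine ⟨α, fun j hd => hα2 ?_⟩
    rw [mem_range] at hα
    rw [mem_image]
    refine ⟨j, mem_univ _, ?_⟩
    have h2 : T j % p < p := Nat.mod_lt _ hp.pos
    have h3 : (α + T j % p) % p = 0 := by
      rw [Nat.add_mod_mod]
      exact Nat.mod_eq_zero_of_dvd hd
    rcases Nat.eq_zero_or_pos (T j % p) with h0 | h0
    · rw [h0] at h3 ⊢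
      rw [Nat.add_zero, Nat.mod_eq_of_lt hα] at h3
      rw [h3, Nat.sub_zero, Nat.mod_self]
    · rw [Nat.mod_eq_of_lt (by omega : p - T j % p < p)]
      obtain ⟨c, hc⟩ := Nat.dvd_of_mod_eq_zero h3
      have hc1 : c = 1 := by
        have h4 : α + T j % p < p * 2 := by omega
        have h5 : 0 < α + T j % p := by omega
        rw [hc] at h4 h5
        have := Nat.lt_of_mul_lt_mul_left h4
        have := Nat.pos_of_mul_pos_left h5
        omega
      rw [hc1] at hc
      omega
  · by_cases hK : Nonempty (Fin K)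
    · obtain ⟨j₀⟩ := hK
      refine ⟨(p - T j₀ % p) + 1, fun j hd => ?_⟩
      have h2 : T j₀ % p < p := Nat.mod_lt _ hp.pos
      have h3 : (p - T j₀ % p) + 1 + T j ≡ (p - T j₀ % p) + 1 + T j₀ [MOD p] := (h j j₀).add_left _
      have h4 : (p - T j₀ % p) + 1 + T j₀ ≡ (p - T j₀ % p) + 1 + T j₀ % p [MOD p] :=
        (Nat.mod_modEq _ _).symm.add_left _
      have h5 : (p - T j₀ % p) + 1 + T j₀ % p = p + 1 := by omega
      rw [h5] at h4
      have h6 : p ∣ p + 1 := (Nat.modEq_zero_iff_dvd).1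
        ((h3.trans h4).symm.trans ((Nat.modEq_zero_iff_dvd).2 hd))
      have h7 : p ∣ 1 := (Nat.dvd_add_right (dvd_refl p)).1 h6
      exact hp.one_lt.ne' (Nat.dvd_one.1 h7)
    · exact ⟨0, fun j => absurd ⟨j⟩ hK⟩

/-- the primes of `(y / 2, y]` -/
def bigP (y : ℕ) : Finset ℕ := (Icc 1 y).filter fun p : ℕ => p.Prime ∧ y < 2 * p

/-- their number -/
theorem bigP_card : ∀ᶠ y : ℕ in atTop, (y : ℝ) / (4 * Real.log y) ≤ ((bigP y).card : ℝ) := by
  have h := Pool.Agent.Helper923.PNT.pi_tendsto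
  have h1 : ∀ᶠ x : ℝ in atTop, 9 / 10 < (Nat.primeCounting ⌊x⌋₊ : ℝ) * Real.log x / x ∧
      (Nat.primeCounting ⌊x⌋₊ : ℝ) * Real.log x / x < 11 / 10 :=
    ((tendsto_order.1 h).1 _ (by norm_num)).and ((tendsto_order.1 h).2 _ (by norm_num))
  obtain ⟨x₀, hx₀⟩ := eventually_atTop.1 h1
  have t1 : Tendsto (fun y : ℕ => (y : ℝ)) atTop atTop := tendsto_natCast_atTop_atTop
  filter_upwards [t1.eventually_ge_atTop (2 * |x₀|), t1.eventually_ge_atTop 2,
    (Real.tendsto_log_atTop.comp t1).eventually_ge_atTop 100] with y h2 h3 h4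
  simp only [Function.comp] at h4
  have hy0 : (0 : ℝ) < y := by linarith
  have hxy : x₀ ≤ (y : ℝ) := by
    have := le_abs_self x₀
    have := abs_nonneg x₀
    linarith
  have hxy2 : x₀ ≤ (y : ℝ) / 2 := by
    have := le_abs_self x₀
    linarith
  have a1 := (hx₀ y hxy).1
  have a2 := (hx₀ ((y : ℝ) / 2) hxy2).2
  rw [Nat.floor_natCast] at a1
  have hfl : ⌊(y : ℝ) / 2⌋₊ = y / 2 := by
    have := Nat.floor_div_natCast (y : ℝ) 2
    rw [Nat.floor_natCast] at this
    exact_mod_cast this
  rw [hfl] at a2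
  set L := Real.log y with hL
  have hL2 : Real.log ((y : ℝ) / 2) = L - Real.log 2 := by
    rw [Real.log_div hy0.ne' (by norm_num)]
  have hlog2 : Real.log 2 ≤ 1 := by
    have := Real.log_two_lt_d9
    linarith
  have hlog20 : 0 < Real.log 2 := Real.log_pos (by norm_num)
  rw [hL2] at a2
  rw [lt_div_iff₀ hy0] at a1
  rw [div_lt_iff₀ (by linarith)] at a2
  have hcard : Nat.primeCounting y ≤ Nat.primeCounting (y / 2) + (bigP y).card := by
    have e1 : ∀ n : ℕ, Nat.primeCounting n = ((Icc 1 n).filter Nat.Prime).card := by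
      intro n
      rw [Nat.primeCounting, Nat.primeCounting', Nat.count_eq_card_filter_range]
      apply congrArg
      ext p
      simp only [mem_filter, mem_range, mem_Icc]
      constructor
      · rintro ⟨h1, h2⟩; exact ⟨⟨h2.pos, by omega⟩, h2⟩
      · rintro ⟨⟨_, h1⟩, h2⟩; exact ⟨by omega, h2⟩
    rw [e1, e1]
    refine le_trans (card_le_card ?_) (card_union_le _ _)
    intro p hp
    rw [mem_filter, mem_Icc] at hp
    rw [mem_union]
    by_cases hc : y < 2 * p
    · right
      unfold bigP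
      rw [mem_filter, mem_Icc]
      exact ⟨hp.1, hp.2, hc⟩
    · left
      rw [mem_filter, mem_Icc]
      exact ⟨⟨hp.1.1, by omega⟩, hp.2⟩
  have hcard' : (Nat.primeCounting y : ℝ) ≤ Nat.primeCounting (y / 2) + (bigP y).card := by
    exact_mod_cast hcard
  have hLpos : 0 < L := by linarith
  have b1 : (9 / 10) * (y : ℝ) / L ≤ Nat.primeCounting y := by
    rw [div_le_iff₀ hLpos]
    exact a1.le
  have b2 : (Nat.primeCounting (y / 2) : ℝ) ≤ (11 / 10) * (y / 2) / (L - Real.log 2) := by
    rw [le_div_iff₀ (by linarith)]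
    exact a2.le
  have b3 : (11 / 10) * ((y : ℝ) / 2) / (L - Real.log 2) ≤ (6 / 10) * y / L := by
    rw [div_le_div_iff₀ (by linarith) hLpos]
    nlinarith
  have b4 : (y : ℝ) / (4 * L) = (1 / 4) * y / L := by
    field_simp
  rw [b4]
  have b5 : (9 / 10) * (y : ℝ) / L - (6 / 10) * y / L = (3 / 10) * y / L := by ring
  have b6 : (1 / 4) * (y : ℝ) / L ≤ (3 / 10) * y / L := by
    apply div_le_div_of_nonneg_right _ hLpos.le
    linarith
  linarith

/-- their harmonic sum -/
theorem bigP_harm (y : ℕ) (hy : 2 ≤ y) : ∑ p ∈ bigP y, (1 : ℝ) / p ≤ 20 / Real.log y := by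
  have hy0 : (0 : ℝ) < y := by exact_mod_cast (by omega : 0 < y)
  have hly : 0 < Real.log y := Real.log_pos (by exact_mod_cast (by omega : 1 < y))
  have h1 := Pool.Agent.H398R2.RK.primes_le y hy
  have h2 : ((bigP y).card : ℝ) ≤ 10 * y / Real.log y := by
    refine le_trans (Nat.cast_le.2 (card_le_card ?_)) h1
    intro p hp
    unfold bigP at hp
    rw [mem_filter] at hp ⊢
    exact ⟨hp.1, hp.2.1⟩
  have h3 : ∀ p ∈ bigP y, (1 : ℝ) / p ≤ 2 / y := by
    intro p hp
    unfold bigP at hp
    rw [mem_filter] at hp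
    have hp0 : (0 : ℝ) < p := by exact_mod_cast hp.2.1.pos
    rw [div_le_div_iff₀ hp0 hy0]
    have : (y : ℝ) ≤ 2 * p := by exact_mod_cast hp.2.2.le
    linarith
  refine (sum_le_card_nsmul _ _ _ h3).trans ?_
  rw [nsmul_eq_mul]
  calc ((bigP y).card : ℝ) * (2 / y) ≤ (10 * y / Real.log y) * (2 / y) := by gcongr
    _ = 20 / Real.log y := by
        field_simp
        ring

end Pool.Agent.H526.IR
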