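import Pool.Graph.R_pool_sql_team_seeded_3997aac3.Q84.MB.D8
import Pool.Agent.H526.IR.Blk

set_option autoImplicit false
set_option maxHeartbeats 4000000

/-! # The residue class: record window, a cluster of admissible places, rich neighbours -/

namespace Pool.Agent.H526.IR

open Finset Filter Pool.Agent.H398R2.RK
open Pool.Agent.H378R2
open Pool.Agent.TH101.RG
open Pool.Agent.H312R2.RG (cov_ev ev_ff)
open Pool.Agent.H256R2.SC (ff)
open Pool.Agent.Q84.MB (VS vv)

open scoped Classical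

/-- the exceptional set is small compared with the number of the large primes -/
theorem ev_exc : ∀ᶠ X : ℝ in atTop, vv X ^ 195 + 1 ≤
    Real.log X / (16000 * Real.log (Real.log X)) := by
  have t1 := Real.tendsto_log_atTop
  have h1 := (Real.isLittleO_log_id_atTop).def (show (0 : ℝ) < 1 / (200 * 32000) by norm_num)
  filter_upwards [Pool.Agent.Q84.MB.vv_tendsto.eventually h1,
    Pool.Agent.Q84.MB.vv_tendsto.eventually_ge_atTop 4, t1.eventually_ge_atTop 3] with X h2 h3 h4
  simp only [id, Real.norm_eq_abs] at h2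
  have hv200 := Pool.Agent.Q84.MB.vv_pow (X := X) (by linarith)
  set v := vv X with hv
  have hlv : 0 < Real.log v := Real.log_pos (by linarith)
  rw [abs_of_pos hlv, abs_of_pos (by linarith : (0 : ℝ) < v)] at h2
  have hL : Real.log (Real.log X) = 200 * Real.log v := by
    rw [← hv200, Real.log_pow]
    norm_num
  rw [hL, ← hv200, le_div_iff₀ (by positivity)]
  have h5 : v ^ 195 + 1 ≤ 2 * v ^ 195 := by
    have : (1 : ℝ) ≤ v ^ 195 := one_le_pow₀ (by linarith)
    linarith
  have h6 : 16000 * (200 * Real.log v) ≤ v / 2 := by linarith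
  have h7 : (1 : ℝ) ≤ v ^ 4 := one_le_pow₀ (by linarith)
  calc (v ^ 195 + 1) * (16000 * (200 * Real.log v)) ≤ (2 * v ^ 195) * (v / 2) := by gcongr
    _ = v ^ 196 := by ring
    _ ≤ v ^ 200 := pow_le_pow_right₀ (by linarith) (by norm_num)

/-- the signed shift of a colour -/
def shf {k : ℕ} (r : Fin k) (s : Bool) : ℤ := if s then ((r : ℕ) + 1 : ℤ) else -((r : ℕ) + 1 : ℤ)

theorem shf_abs {k : ℕ} (r : Fin k) (s : Bool) : |shf r s| = ((r : ℕ) + 1 : ℤ) := by
  unfold shf
  split_ifs
  · exact abs_of_nonneg (by positivity)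
  · rw [abs_neg]
    exact abs_of_nonneg (by positivity)

theorem exists_shf {k : ℕ} (i : ℤ) (h1 : 1 ≤ |i|) (h2 : |i| ≤ k) : ∃ (r : Fin k) (s : Bool), shf r s = i := by
  rcases le_total 0 i with h | h
  · rw [abs_of_nonneg h] at h1 h2
    refine ⟨⟨(i - 1).toNat, by omega⟩, true, ?_⟩
    unfold shf
    simp only [if_true]
    omega
  · rw [abs_of_nonpos h] at h1 h2
    refine ⟨⟨(-i - 1).toNat, by omega⟩, false, ?_⟩
    unfold shf
    simp only [Bool.false_eq_true, if_false]
    omega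

/-! ### small inequalities -/

theorem aux_fac (K f : ℕ) (h1 : 1 ≤ f) : K + 1 ≤ 3 * (K + 1) * f + 1 := by
  nlinarith

theorem aux_le_mul (x D : ℝ) (hx : 0 ≤ x) (hD : 1 ≤ D) : x ≤ x * D := by
  nlinarith

theorem aux_sq (D B : ℝ) (h1 : D ≤ B) (h2 : 1 ≤ B) : D ≤ B ^ 2 := by
  nlinarith

theorem aux_six (A : ℝ) (hA : 100 ≤ A) : 6 ≤ A ^ 2 := by
  nlinarith

theorem aux_lin (l A : ℝ) (h1 : l ≤ A) (hA : 100 ≤ A) : l ≤ A ^ 2 := by
  nlinarith

theorem aux_card (n x u : ℝ) (h4 : u ≤ n * x) (h5 : n ≤ 1) (h6 : 0 ≤ x) : u ≤ x := by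
  nlinarith

/-- **The class.** -/
theorem cls (K : ℕ) (c₁ : ℝ) (hc₁ : 0 < c₁) : ∃ c : ℝ, 0 < c ∧ ∀ᶠ X : ℝ in atTop, ∀ (ps : ℕ) (S : Finset ℕ),
    GoodS X S → (S.card : ℝ) ≤ vv X ^ 195 → ∀ k : ℕ, 1 ≤ k →
    (k : ℝ) * Real.log (Real.log X) ≤ c * Real.log X →
    ∃ a D s : ℕ, (D : ℝ) ≤ (Real.log X) ^ 2 ∧ ((VS (WW X S ps) a D).card : ℝ) ≤ c₁ * Real.log X ∧
      (∀ j : Fin K, (a + (s + j * (K.factorial * (2 * k + 1)))).Coprime (WW X S ps)) ∧
      c * ff X ≤ s ∧ (s : ℝ) + (K * (K.factorial * (2 * k + 1)) : ℕ) + c * ff X ≤ D ∧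
      ∀ (j : Fin K) (i : ℤ), 1 ≤ |i| → |i| ≤ k →
        c / k * (Real.log X / Real.log (Real.log X)) ≤
          (((PW X S ps).filter fun q : ℕ => (q : ℤ) ∣ (a : ℤ) +
            ((s + j * (K.factorial * (2 * k + 1)) : ℕ) : ℤ) + i).card : ℝ) := by
  obtain ⟨C, hC, y₀, hrs⟩ := rsurvK K (3 + 3 * K * K) (27 + 3 * K * K) (by positivity)
  obtain ⟨y₂, hsh⟩ := shift_exK K
  obtain ⟨y₄, hbc⟩ := eventually_atTop.1 bigP_card
  set c₂ : ℝ := min (1 / 8000) (c₁ / (8 * C)) with hc₂
  have hc₂0 : 0 < c₂ := lt_min (by norm_num) (by positivity)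
  have hc₂1 : c₂ ≤ 1 / 8000 := min_le_left _ _
  have hc₂2 : c₂ ≤ c₁ / (8 * C) := min_le_right _ _
  obtain ⟨A₀, hev⟩ := cov_ev (c₂ / 10) (by positivity)
  obtain ⟨y₃, hv⟩ := eventually_atTop.1 vfacts
  -- the constant
  set C₃ : ℕ := 3 * (K + 1) * (K.factorial) + 1 with hC₃
  have hC₃1 : (1 : ℝ) ≤ C₃ := by exact_mod_cast (by omega : 1 ≤ C₃)
  set c : ℝ := min (c₂ / 8) (1 / (64000 * C₃)) with hc
  have hc0 : 0 < c := lt_min (by positivity) (by positivity)
  have hcc2 : c ≤ c₂ / 8 := min_le_left _ _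
  have hcC3 : c ≤ 1 / (64000 * C₃) := min_le_right _ _
  have hK3 : (K : ℝ) + 1 ≤ C₃ := by
    have h1 : 1 ≤ K.factorial := Nat.factorial_pos K
    have h2 : K + 1 ≤ C₃ := by
      rw [hC₃]
      exact aux_fac K _ h1
    exact_mod_cast h2
  refine ⟨c, hc0, ?_⟩
  have t1 := Real.tendsto_log_atTop
  have t2 : Tendsto (fun y : ℝ => Real.log (Real.log y)) atTop atTop := t1.comp t1
  filter_upwards [t2.eventually_ge_atTop A₀, t1.eventually_ge_atTop (2000 * ((y₀ : ℝ) + 2)),
    t1.eventually_ge_atTop (2000 * ((y₂ : ℝ) + 2)), t1.eventually_ge_atTop (2000 * (|y₃| + 2)),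
    t1.eventually_ge_atTop (2000 * ((y₄ : ℝ) + 2)), ev_ff c₂ hc₂0, eventually_gt_atTop 0, ev_exc]
    with X e1 e2 e3 e4 e5 e6 hX0 e7
  intro ps S hS hSc k hk1 hkc
  set T := Real.log X with hT
  have hT0 : 0 < T := by
    have : (0 : ℝ) ≤ y₀ := Nat.cast_nonneg _
    linarith
  set A := Real.log T with hA
  obtain ⟨a1, a2, a3, a4, a5, a6, a7, a8, a9⟩ := hev A e1
  have hTe : T = Real.exp A := by rw [hA, Real.exp_log hT0]
  set B := Real.log A with hB
  set D' := Real.log B with hD
  have hff : ff X = T * A ^ 2 * D' / B ^ 2 := by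
    unfold Pool.Agent.H256R2.SC.ff
    rfl
  have hA0' : 0 < A := by linarith
  have hB0 : 0 < B := by linarith
  have hD0 : 0 < D' := by linarith
  -- y
  set y := yy X with hy
  have hyT : (y : ℝ) ≤ T / 1000 := Nat.floor_le (by positivity)
  have hyT2 : T / 2000 ≤ y := by
    have h1 : T / 1000 < (y : ℝ) + 1 := Nat.lt_floor_add_one _
    have h2 : 1 ≤ T / 2000 := by
      rw [le_div_iff₀ (by norm_num), hTe]; linarith
    linarith [show T / 1000 = T / 2000 + T / 2000 by ring]
  have hyy0 : y₀ ≤ y := by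
    have : (y₀ : ℝ) ≤ y := by linarith
    exact_mod_cast this
  have hyy2 : y₂ ≤ y := by
    have : (y₂ : ℝ) ≤ y := by linarith
    exact_mod_cast this
  have hyy4 : y₄ ≤ y := by
    have : (y₄ : ℝ) ≤ y := by linarith
    exact_mod_cast this
  have hyy3 : y₃ ≤ y := by
    have := le_abs_self y₃
    linarith
  obtain ⟨hv1, hv2, hv3⟩ := hv y hyy3
  have hy0 : (0 : ℝ) < y := by
    have : (0 : ℝ) ≤ y₀ := Nat.cast_nonneg _
    linarith
  have hly1 : Real.log y ≤ A := by
    rw [hA]; apply Real.log_le_log hy0; linarith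
  have hly2 : A / 2 ≤ Real.log y := by
    have h1 : Real.log (T / 2000) ≤ Real.log y := Real.log_le_log (by positivity) hyT2
    rw [Real.log_div hT0.ne' (by norm_num)] at h1
    linarith
  have hly0 : 0 < Real.log y := by linarith
  have hl2y1 : Real.log (Real.log y) ≤ B := Real.log_le_log hly0 hly1
  have hl2y2 : B / 2 ≤ Real.log (Real.log y) := by
    have h1 : Real.log (A / 2) ≤ Real.log (Real.log y) := Real.log_le_log (by positivity) hly2
    rw [Real.log_div hA0'.ne' (by norm_num)] at h1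
    linarith
  have hl2y0 : 0 < Real.log (Real.log y) := by linarith
  have hl3y2 : D' / 2 ≤ Real.log (Real.log (Real.log y)) := by
    have h1 : Real.log (B / 2) ≤ Real.log (Real.log (Real.log y)) := Real.log_le_log (by positivity) hl2y2
    rw [Real.log_div hB0.ne' (by norm_num)] at h1
    linarith
  have hy2 : 2 ≤ y := by
    have h1 : (2 : ℝ) ≤ y := by
      have : (0 : ℝ) ≤ y₀ := Nat.cast_nonneg _
      linarith
    exact_mod_cast h1
  -- H
  set H : ℕ := ⌊c₂ * ff X⌋₊ with hH
  have hff0 : 0 ≤ c₂ * ff X := by rw [hff]; positivity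
  have hHle : (H : ℝ) ≤ c₂ * ff X := Nat.floor_le hff0
  have hT1 : 10 * T ≤ c₂ * ff X := by
    rw [hff, mul_div_assoc', le_div_iff₀ (by positivity)]
    have h1 : 10 * T * B ^ 2 ≤ 10 * T * (c₂ / 10 * A ^ 2) := by gcongr
    have h2 : T * (c₂ * A ^ 2) ≤ T * (c₂ * A ^ 2) * D' := by
      have : 0 ≤ T * (c₂ * A ^ 2) := by positivity
      exact aux_le_mul _ _ this (by linarith)
    linarith [show c₂ * (T * A ^ 2 * D') = T * (c₂ * A ^ 2) * D' by ring,
      show 10 * T * (c₂ / 10 * A ^ 2) = T * (c₂ * A ^ 2) by ring]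
  have hT2000 : 2000 ≤ T := by rw [hTe]; exact a9
  have hyH : y ≤ H := by
    rw [hH]
    apply Nat.le_floor
    have : (y : ℝ) ≤ T := by linarith
    linarith
  have hHy : (H : ℝ) ≤ y * (Real.log y) ^ 2 := by
    refine hHle.trans ?_
    have h1 : T / 2000 * (A / 2) ^ 2 ≤ y * (Real.log y) ^ 2 := by gcongr
    refine le_trans ?_ h1
    rw [hff, mul_div_assoc', div_le_iff₀ (by positivity)]
    have h2 : D' ≤ B ^ 2 := aux_sq _ _ (by linarith) (by linarith)
    have h3 : c₂ * (T * A ^ 2 * D') ≤ 1 / 8000 * (T * A ^ 2 * B ^ 2) := by gcongr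
    linarith [show T / 2000 * (A / 2) ^ 2 * B ^ 2 = 1 / 8000 * (T * A ^ 2 * B ^ 2) by ring]
  -- the distance of the members of the cluster
  obtain ⟨d, hd⟩ : ∃ d : ℕ, d = K.factorial * (2 * k + 1) := ⟨_, rfl⟩
  rw [← hd]
  have hfac1 : 1 ≤ K.factorial := Nat.factorial_pos K
  have hdk : 2 * k + 1 ≤ d := by rw [hd]; exact Nat.le_mul_of_pos_left _ hfac1
  have hKdk : K * d + k ≤ C₃ * k := by
    rw [hC₃, hd]
    have h1 : 2 * k + 1 ≤ 3 * k := by omega
    have h2 : K * (K.factorial * (2 * k + 1)) ≤ K * (K.factorial * (3 * k)) := by gcongr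
    have h3 : (3 * (K + 1) * K.factorial + 1) * k = K * (K.factorial * (3 * k)) + 3 * K.factorial * k + k := by
      ring
    omega
  have hkT : (C₃ : ℝ) * k ≤ T / 64000 := by
    have h1 : (k : ℝ) ≤ (k : ℝ) * A := le_mul_of_one_le_right (Nat.cast_nonneg k) a1
    have h2 : (k : ℝ) ≤ 1 / (64000 * C₃) * T := h1.trans (hkc.trans (by gcongr))
    calc (C₃ : ℝ) * k ≤ C₃ * (1 / (64000 * C₃) * T) := by gcongr
      _ = T / 64000 := by field_simp
  have hKdr : ((K * d + k : ℕ) : ℝ) ≤ T / 64000 := by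
    refine le_trans ?_ hkT
    exact_mod_cast hKdk
  have hKdy : 2 * (K * d + k) < y := by
    have h1 : 2 * ((K * d + k : ℕ) : ℝ) < y := by linarith
    exact_mod_cast h1
  -- the shift
  set N : ℕ := H / 3 with hN
  have hHlow : c₂ * ff X < (H : ℝ) + 1 := Nat.lt_floor_add_one _
  have hNlow : (H : ℝ) ≤ 3 * N + 2 := by
    have : H ≤ 3 * N + 2 := by omega
    exact_mod_cast this
  have hNc : c₂ / 4 * ff X ≤ N := by linarith
  have hyN : y ≤ N := by
    have : (y : ℝ) ≤ N := by linarith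
    exact_mod_cast this
  obtain ⟨s, hsN, hs12⟩ := hsh y hyy2 N hyN (fun j => -((N + j * d : ℕ) : ℤ))
  have hbj : ∀ (j : Fin K) (p : ℕ), (p : ℤ) ∣ -((N + j * d : ℕ) : ℤ) - s ↔ p ∣ N + s + j * d := by
    intro j p
    rw [show -((N + j * d : ℕ) : ℤ) - s = -((N + s + j * d : ℕ) : ℤ) by push_cast; ring, dvd_neg,
      Int.natCast_dvd_natCast]
  simp only [hbj] at hs12
  -- the set F
  set F : Finset ℕ := (Icc 1 y).filter (fun p : ℕ => p.Prime ∧ (p ∈ S ∨ p = ps ∨ y < 2 * p ∨
    ∃ j : Fin K, p ∣ N + s + j * d)) with hF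
  have hFmem : ∀ p : ℕ, p ∈ F ↔ (p ≤ y ∧ p.Prime ∧ (p ∈ S ∨ p = ps ∨ y < 2 * p ∨
      ∃ j : Fin K, p ∣ N + s + j * d)) := by
    intro p
    rw [hF, mem_filter, mem_Icc]
    constructor
    · rintro ⟨⟨_, h1⟩, h2⟩; exact ⟨h1, h2⟩
    · rintro ⟨h1, h2⟩; exact ⟨⟨h2.1.pos, h1⟩, h2⟩
  have hpos : ∀ i : ℕ, 0 ≤ (1 : ℝ) / (i : ℝ) := fun i => by positivity
  set Ps : Finset ℕ := if ps.Prime then {ps} else ∅ with hPs
  have hPs2 : ∀ q ∈ Ps, q = ps ∧ ps.Prime := by
    intro q hq
    rw [hPs] at hq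
    split_ifs at hq with h
    · exact ⟨mem_singleton.1 hq, h⟩
    · simp at hq
  have hFsub : F ⊆ ((S ∪ Ps) ∪ bigP y) ∪
      univ.biUnion (fun j : Fin K => (Icc 1 y).filter (fun p : ℕ => p.Prime ∧ p ∣ N + s + j * d)) := by
    intro p hp
    rw [hFmem] at hp
    obtain ⟨h1, h2, h3⟩ := hp
    rw [mem_union, mem_union, mem_union]
    rcases h3 with h | h | h | h
    · exact Or.inl (Or.inl (Or.inl h))
    · left; left; right
      rw [hPs, ← h, if_pos h2]
      simp
    · left; right
      unfold bigP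
      rw [mem_filter, mem_Icc]
      exact ⟨⟨h2.pos, h1⟩, h2, h⟩
    · right
      obtain ⟨j, h⟩ := h
      rw [mem_biUnion]
      refine ⟨j, mem_univ _, ?_⟩
      rw [mem_filter, mem_Icc]
      exact ⟨⟨h2.pos, h1⟩, h2, h⟩
  have hSsum : ∑ q ∈ S, (1 : ℝ) / q ≤ 6 / A ^ 2 := hS.2
  have hA100 : 100 ≤ A := by linarith
  have hbig := bigP_harm y hy2
  have hFsum : ∑ q ∈ F, (1 : ℝ) / q ≤ 3 + 3 * K * K := by
    have h1 : ∑ q ∈ F, (1 : ℝ) / q ≤ ((∑ q ∈ S, (1 : ℝ) / q + ∑ q ∈ Ps, (1 : ℝ) / q) +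
        ∑ q ∈ bigP y, (1 : ℝ) / q) +
        ∑ q ∈ univ.biUnion (fun j : Fin K => (Icc 1 y).filter (fun p : ℕ => p.Prime ∧ p ∣ N + s + j * d)),
          (1 : ℝ) / q := by
      refine (sum_le_sum_of_subset_of_nonneg hFsub (fun i _ _ => hpos i)).trans ?_
      refine (sum_union_le' _ hpos).trans ?_
      apply add_le_add_left
      refine (sum_union_le' _ hpos).trans ?_
      apply add_le_add_left
      exact sum_union_le' _ hpos
    have h2 : ∑ q ∈ Ps, (1 : ℝ) / q ≤ 1 := by
      rw [hPs]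
      split_ifs with h
      · rw [sum_singleton, div_le_one (by exact_mod_cast h.pos)]
        exact_mod_cast h.one_lt.le
      · simp
    have h3 : ∑ q ∈ S, (1 : ℝ) / q ≤ 1 := by
      refine hSsum.trans ?_
      rw [div_le_one (by positivity)]
      exact aux_six A hA100
    have h5 : ∑ q ∈ bigP y, (1 : ℝ) / q ≤ 1 := by
      refine hbig.trans ?_
      rw [div_le_one hly0]
      linarith
    have h4 : ∑ q ∈ univ.biUnion (fun j : Fin K => (Icc 1 y).filter (fun p : ℕ => p.Prime ∧ p ∣ N + s + j * d)),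
        (1 : ℝ) / q ≤ 3 * K * K := by
      refine (sum_biUnion_le' _ _ _ hpos).trans ?_
      refine (sum_le_card_nsmul _ _ _ (fun j _ => (hs12 j).1)).trans (le_of_eq ?_)
      rw [card_univ, Fintype.card_fin, nsmul_eq_mul]
      ring
    linarith
  have hFtail : ∑ q ∈ F.filter (fun q : ℕ => V0 y < Real.log q), (1 : ℝ) / q ≤ (27 + 3 * K * K) / Real.log y := by
    have hV0' : Real.exp (-(V0 y)) ≤ 1 / (Real.log y) ^ 4 := by
      rw [Real.exp_neg, ← one_div]
      exact one_div_le_one_div_of_le (by positivity) hv2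
    have hbig' : ∀ q : ℕ, 0 < q → V0 y < Real.log q → (1 : ℝ) / q ≤ 1 / (Real.log y) ^ 4 := by
      intro q hq0 hq
      have hq0' : (0 : ℝ) < q := by exact_mod_cast hq0
      refine le_trans ?_ hV0'
      rw [Real.exp_neg, ← one_div]
      exact one_div_le_one_div_of_le (Real.exp_pos _) ((Real.lt_log_iff_exp_lt hq0').1 hq).le
    have h1 : ∑ q ∈ F.filter (fun q : ℕ => V0 y < Real.log q), (1 : ℝ) / q ≤
        ((∑ q ∈ S, (1 : ℝ) / q + ∑ q ∈ Ps.filter (fun q : ℕ => V0 y < Real.log q), (1 : ℝ) / q) +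
        ∑ q ∈ bigP y, (1 : ℝ) / q) +
        ∑ q ∈ univ.biUnion (fun j : Fin K => (Icc 1 y).filter (fun p : ℕ => p.Prime ∧ p ∣ N + s + j * d ∧
          V0 y < Real.log p)), (1 : ℝ) / q := by
      have hsub : F.filter (fun q : ℕ => V0 y < Real.log q) ⊆
          ((S ∪ Ps.filter (fun q : ℕ => V0 y < Real.log q)) ∪ bigP y) ∪
          univ.biUnion (fun j : Fin K => (Icc 1 y).filter (fun p : ℕ => p.Prime ∧ p ∣ N + s + j * d ∧
            V0 y < Real.log p)) := by
        intro p hp
        rw [mem_filter] at hp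
        have h2 := hFsub hp.1
        rw [mem_union, mem_union, mem_union] at h2
        rw [mem_union, mem_union, mem_union, mem_filter]
        rcases h2 with ((h | h) | h) | h
        · exact Or.inl (Or.inl (Or.inl h))
        · exact Or.inl (Or.inl (Or.inr ⟨h, hp.2⟩))
        · exact Or.inl (Or.inr h)
        · right
          rw [mem_biUnion] at h ⊢
          obtain ⟨j, hj, h⟩ := h
          refine ⟨j, hj, ?_⟩
          rw [mem_filter] at h ⊢
          exact ⟨h.1, h.2.1, h.2.2, hp.2⟩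
      refine (sum_le_sum_of_subset_of_nonneg hsub (fun i _ _ => hpos i)).trans ?_
      refine (sum_union_le' _ hpos).trans ?_
      apply add_le_add_left
      refine (sum_union_le' _ hpos).trans ?_
      apply add_le_add_left
      exact sum_union_le' _ hpos
    have hl4 : 1 / (Real.log y) ^ 4 ≤ 1 / Real.log y := by
      apply one_div_le_one_div_of_le hly0
      calc Real.log y = (Real.log y) ^ 1 := (pow_one _).symm
        _ ≤ (Real.log y) ^ 4 := pow_le_pow_right₀ (by linarith) (by norm_num)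
    have h2 : ∑ q ∈ Ps.filter (fun q : ℕ => V0 y < Real.log q), (1 : ℝ) / q ≤ 1 / Real.log y := by
      refine le_trans ?_ hl4
      have h3 : (Ps.filter (fun q : ℕ => V0 y < Real.log q)).card ≤ 1 := by
        refine (card_le_card (filter_subset _ _)).trans ?_
        rw [hPs]
        split_ifs <;> simp
      have h4 : ∑ q ∈ Ps.filter (fun q : ℕ => V0 y < Real.log q), (1 : ℝ) / q ≤
          (Ps.filter (fun q : ℕ => V0 y < Real.log q)).card • (1 / (Real.log y) ^ 4) := by
        apply sum_le_card_nsmul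
        intro q hq
        rw [mem_filter] at hq
        obtain ⟨h5, h6⟩ := hPs2 q hq.1
        exact hbig' q (by rw [h5]; exact h6.pos) hq.2
      rw [nsmul_eq_mul] at h4
      have h5 : ((Ps.filter (fun q : ℕ => V0 y < Real.log q)).card : ℝ) ≤ 1 := by exact_mod_cast h3
      have h6 : 0 ≤ 1 / (Real.log y) ^ 4 := by positivity
      exact aux_card _ _ _ h4 h5 h6
    have h4 : ∑ q ∈ S, (1 : ℝ) / q ≤ 6 / Real.log y := by
      refine hSsum.trans ?_
      apply div_le_div_of_nonneg_left (by norm_num) hly0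
      exact aux_lin _ _ hly1 hA100
    have h5 : ∑ q ∈ univ.biUnion (fun j : Fin K => (Icc 1 y).filter (fun p : ℕ => p.Prime ∧ p ∣ N + s + j * d ∧
          V0 y < Real.log p)), (1 : ℝ) / q ≤ 3 * K * K / Real.log y := by
      refine (sum_biUnion_le' _ _ _ hpos).trans ?_
      refine (sum_le_card_nsmul _ _ _ (fun j _ => (hs12 j).2)).trans (le_of_eq ?_)
      rw [card_univ, Fintype.card_fin, nsmul_eq_mul]
      ring
    have h6 : (27 + 3 * K * K) / Real.log y = 6 / Real.log y + 1 / Real.log y + 20 / Real.log y +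
      3 * K * K / Real.log y := by ring
    linarith
  obtain ⟨β, hβ1, hβ2⟩ := hrs y hyy0 F (fun q hq => ((hFmem q).1 hq).2.1) hFsum hFtail H hyH hHy
    (fun j _ => N + s + j * d) (by
      intro j p hp hpy hpF _ hdv
      exact hpF ((hFmem p).2 ⟨hpy, hp, Or.inr (Or.inr (Or.inr ⟨j, hdv⟩))⟩))
  have hcardle : C * H * (Real.log (Real.log y)) ^ 2 /
        ((Real.log y) ^ 2 * Real.log (Real.log (Real.log y))) ≤ c₁ * T := by
    calc C * H * (Real.log (Real.log y)) ^ 2 /
        ((Real.log y) ^ 2 * Real.log (Real.log (Real.log y)))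
        ≤ C * (c₂ * ff X) * B ^ 2 / ((A / 2) ^ 2 * (D' / 2)) := by gcongr
      _ = 8 * C * c₂ * T := by
          rw [hff]
          field_simp
          ring
      _ ≤ 8 * C * (c₁ / (8 * C)) * T := by gcongr
      _ = c₁ * T := by field_simp
  -- the blocks
  obtain ⟨G, hG⟩ : ∃ G : Finset ℕ, G = (PW X S ps).filter (fun q : ℕ => y < 2 * q) := ⟨_, rfl⟩
  have hGcard : T / (16000 * A) ≤ (G.card : ℝ) := by
    have h1 : bigP y ⊆ (G ∪ S) ∪ {ps} := by
      intro p hp
      unfold bigP at hp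
      rw [mem_filter, mem_Icc] at hp
      rw [mem_union, mem_union, mem_singleton]
      by_cases h2 : p = ps
      · exact Or.inr h2
      by_cases h3 : p ∈ S
      · exact Or.inl (Or.inr h3)
      left; left
      rw [hG, mem_filter, mem_PW]
      exact ⟨⟨hp.1.2, hp.2.1, h3, h2⟩, hp.2.2⟩
    have h2 : ((bigP y).card : ℝ) ≤ G.card + S.card + 1 := by
      have h3 := (card_le_card h1).trans ((card_union_le _ _).trans
        (Nat.add_le_add_right (card_union_le _ _) _))
      rw [card_singleton] at h3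
      exact_mod_cast h3
    have h3 := hbc y hyy4
    have h4 : T / (8000 * A) ≤ (y : ℝ) / (4 * Real.log y) := by
      rw [div_le_div_iff₀ (by positivity) (by positivity)]
      have h5 : T / 2000 * Real.log y ≤ y * A := by gcongr
      linarith
    have h5 : T / (8000 * A) = T / (16000 * A) + T / (16000 * A) := by
      field_simp
      ring
    linarith
  obtain ⟨L, hL⟩ : ∃ L : ℕ, L = G.card / (K * (2 * k)) := ⟨_, rfl⟩
  have hcardκ : Fintype.card (Fin K × Fin k × Bool) = K * (2 * k) := by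
    rw [Fintype.card_prod, Fintype.card_prod, Fintype.card_fin, Fintype.card_fin, Fintype.card_bool]
    ring
  obtain ⟨blk, hblkG, hblkL, hblkd⟩ := blocks' (κ := Fin K × Fin k × Bool) G L (by
    rw [hcardκ, hL]
    exact Nat.mul_div_le _ _)
  have hLlow : Fin K → c / k * (T / A) ≤ L := by
    intro j₀
    have hK1 : 1 ≤ K := by
      have := j₀.2
      omega
    have hkr : (1 : ℝ) ≤ k := by exact_mod_cast hk1
    have hKr : (1 : ℝ) ≤ K := by exact_mod_cast hK1
    have h0 : 0 < K * (2 * k) := by positivity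
    have h1 : (G.card : ℝ) < ((K * (2 * k) : ℕ) : ℝ) * (L + 1) := by
      have := Nat.lt_mul_div_succ G.card h0
      rw [← hL] at this
      exact_mod_cast this
    push_cast at h1
    have h2 : c * (64000 * K) ≤ 1 := by
      have h3 : (K : ℝ) ≤ C₃ := by linarith
      calc c * (64000 * K) ≤ 1 / (64000 * C₃) * (64000 * C₃) := by gcongr
        _ = 1 := by field_simp
    -- `1 ≤ T / (64000 K A k)`
    have h3 : (64000 * K) * (k * A) ≤ T := by
      calc (64000 * (K : ℝ)) * (k * A) ≤ (64000 * K) * (c * T) := by gcongr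
        _ = c * (64000 * K) * T := by ring
        _ ≤ 1 * T := by gcongr
        _ = T := one_mul T
    have h4 : T / (32000 * A * (K * k)) ≤ L + 1 := by
      rw [div_le_iff₀ (by positivity)]
      have h5 : T / (16000 * A) ≤ (K : ℝ) * (2 * k) * (L + 1) := hGcard.trans h1.le
      rw [div_le_iff₀ (by positivity)] at h5
      linarith
    have h5 : (2 : ℝ) ≤ T / (32000 * A * (K * k)) := by
      rw [le_div_iff₀ (by positivity)]
      linarith
    have h6 : T / (64000 * A * (K * k)) ≤ L := by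
      have h7 : T / (32000 * A * (K * k)) = 2 * (T / (64000 * A * (K * k))) := by
        field_simp
        ring
      rw [h7] at h4 h5
      linarith
    refine le_trans ?_ h6
    rw [div_mul_div_comm, div_le_div_iff₀ (by positivity) (by positivity)]
    calc c * T * (64000 * A * (K * k)) = (c * (64000 * K)) * (T * (k * A)) := by ring
      _ ≤ 1 * (T * (k * A)) := by gcongr
      _ = T * (k * A) := one_mul _
  -- residues
  have hρ : ∀ p : ℕ, ∃ ρ : ℕ, p ∈ PW X S ps → ((∀ j : Fin K, ¬ p ∣ ρ + (N + s + j * d)) ∧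
      (p ∉ F → (p : ℤ) ∣ ρ + β p) ∧
      (∀ (j : Fin K) (r : Fin k) (b : Bool), p ∈ blk (j, r, b) →
        (p : ℤ) ∣ ρ + (((N + s + j * d : ℕ) : ℤ) + shf r b))) := by
    intro p
    by_cases hp : p ∈ PW X S ps
    · obtain ⟨hpy, hpp, hpS, hpps⟩ := mem_PW.1 hp
      have hp1 : ¬ (p : ℤ) ∣ 1 := by
        intro h
        have h2 : p ∣ 1 := by exact_mod_cast h
        exact hpp.one_lt.ne' (Nat.dvd_one.1 h2)
      by_cases hpF : p ∈ F
      · by_cases hpc : ∃ (j : Fin K) (r : Fin k) (b : Bool), p ∈ blk (j, r, b)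
        · obtain ⟨j, r, b, hjrb⟩ := hpc
          have hpy2 : y < 2 * p := by
            have h1 := hblkG _ hjrb
            rw [hG, mem_filter] at h1
            exact h1.2
          obtain ⟨ρ, hρ⟩ := solve p hpp 1 (((N + s + j * d : ℕ) : ℤ) + shf r b) hp1
          rw [one_mul] at hρ
          refine ⟨ρ, fun _ => ⟨?_, fun h => absurd hpF h, ?_⟩⟩
          · intro j' hd'
            have h1 : (p : ℤ) ∣ ((ρ + (N + s + j' * d) : ℕ) : ℤ) := Int.natCast_dvd_natCast.2 hd'
            have h2 : (p : ℤ) ∣ ((j' : ℤ) - j) * d - shf r b := by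
              have := dvd_sub h1 hρ
              have e : ((ρ + (N + s + j' * d) : ℕ) : ℤ) - (ρ + (((N + s + j * d : ℕ) : ℤ) + shf r b)) =
                  ((j' : ℤ) - j) * d - shf r b := by
                push_cast
                ring
              rwa [e] at this
            have habs := shf_abs r b
            have hr := r.2
            have hj1 : |((j' : ℤ) - j)| ≤ K := by
              rw [abs_le]
              have := j.2
              have := j'.2
              constructor <;> omega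
            have h3 : |((j' : ℤ) - j) * d - shf r b| < p := by
              calc |((j' : ℤ) - j) * d - shf r b| ≤ |((j' : ℤ) - j) * d| + |shf r b| := abs_sub _ _
                _ ≤ K * d + k := by
                    rw [abs_mul, habs, Nat.abs_cast]
                    apply add_le_add
                    · gcongr
                    · omega
                _ < p := by
                    have : 2 * (K * d + k) < 2 * p := by omega
                    have h4 : K * d + k < p := by omega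
                    exact_mod_cast h4
            have h4 := Int.eq_zero_of_abs_lt_dvd h2 h3
            have h5 : ((j' : ℤ) - j) * d = shf r b := by linarith
            have h6 : |((j' : ℤ) - j)| * d = (r : ℕ) + 1 := by
              rw [← habs, ← h5, abs_mul, Nat.abs_cast]
            rcases eq_or_ne (j' : ℤ) j with h7 | h7
            · rw [h7, sub_self, abs_zero, zero_mul] at h6
              omega
            · have h8 : 1 ≤ |((j' : ℤ) - j)| := Int.one_le_abs (sub_ne_zero.2 h7)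
              have h9 : (d : ℤ) ≤ |((j' : ℤ) - j)| * d := le_mul_of_one_le_left (by positivity) h8
              have h10 : ((2 * k + 1 : ℕ) : ℤ) ≤ d := by exact_mod_cast hdk
              push_cast at h10
              omega
          · intro j₁ r₁ b₁ h
            have h1 := hblkd _ _ p hjrb h
            simp only [Prod.mk.injEq] at h1
            obtain ⟨rfl, rfl, rfl⟩ := h1
            exact hρ
        · obtain ⟨ρ, hρ⟩ := class_free K p hpp (fun j => N + s + j * d) (by
            by_cases hKp : K < p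
            · exact Or.inl hKp
            · right
              intro j j'
              have h1 : p ∣ d := by
                rw [hd]
                exact ((hpp.dvd_factorial).2 (by omega)).mul_right _
              have h2 : ∀ i : Fin K, N + s + i * d ≡ N + s [MOD p] := by
                intro i
                have h3 : (i : ℕ) * d ≡ 0 [MOD p] := (Nat.modEq_zero_iff_dvd).2 (h1.mul_left _)
                simpa using h3.add_left (N + s)
              exact (h2 j).trans (h2 j').symm)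
          refine ⟨ρ, fun _ => ⟨hρ, fun h => absurd hpF h, ?_⟩⟩
          intro j r b h2
          exact absurd ⟨j, r, b, h2⟩ hpc
      · obtain ⟨ρ, hρ⟩ := solve p hpp 1 (β p) hp1
        rw [one_mul] at hρ
        refine ⟨ρ, fun _ => ⟨?_, fun _ => hρ, ?_⟩⟩
        · intro j hd'
          apply (hβ1 p hpp hpy hpF).2 j
          have h1 : (p : ℤ) ∣ ((ρ + (N + s + j * d) : ℕ) : ℤ) := Int.natCast_dvd_natCast.2 hd'
          have h2 : (p : ℤ) ∣ (β p : ℤ) - ((N + s + j * d : ℕ) : ℤ) := by
            have := dvd_sub hρ h1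
            have e : (ρ : ℤ) + β p - ((ρ + (N + s + j * d) : ℕ) : ℤ) =
                (β p : ℤ) - ((N + s + j * d : ℕ) : ℤ) := by
              push_cast
              ring
            rwa [e] at this
          exact (Nat.modEq_iff_dvd).2 h2
        · intro j r b h0
          have h1 := hblkG _ h0
          rw [hG, mem_filter] at h1
          exact absurd ((hFmem p).2 ⟨hpy, hpp, Or.inr (Or.inr (Or.inl h1.2))⟩) hpF
    · exact ⟨0, fun h => absurd h hp⟩
  choose ρ hρ using hρ
  obtain ⟨a, ha⟩ := Nat.chineseRemainderOfFinset ρ (fun p => p) (PW X S ps)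
    (fun p hp => (mem_PW.1 hp).2.1.ne_zero)
    (fun p hp q hq hpq => (Nat.coprime_primes (mem_PW.1 (by simpa using hp)).2.1
      (mem_PW.1 (by simpa using hq)).2.1).2 hpq)
  refine ⟨a, H, N + s, hHle.trans e6.1, ?_, ?_, ?_, ?_, ?_⟩
  · refine le_trans ?_ (hβ2.trans hcardle)
    apply Nat.cast_le.2
    apply card_le_card
    intro v hv'
    unfold VS at hv'
    rw [mem_filter, mem_range] at hv' ⊢
    refine ⟨hv'.1, fun p hpp hpy hpF hpk => ?_⟩
    have hpPW : p ∈ PW X S ps := mem_PW.2 ⟨hpy, hpp, fun h => hpF ((hFmem p).2 ⟨hpy, hpp, Or.inl h⟩),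
        fun h => hpF ((hFmem p).2 ⟨hpy, hpp, Or.inr (Or.inl h)⟩)⟩
    have h1 : p ∣ a + v := by
      have h2 := (hρ p hpPW).2.1 hpF
      have h3 : p ∣ ρ p + β p := by exact_mod_cast h2
      have h4 : a + v ≡ ρ p + β p [MOD p] := (ha p hpPW).add hpk
      exact (Nat.modEq_zero_iff_dvd).1 (h4.trans ((Nat.modEq_zero_iff_dvd).2 h3))
    exact Nat.Prime.not_coprime_iff_dvd.2 ⟨p, hpp, h1, (prime_dvd_WW hpp).2 hpPW⟩ hv'.2
  · intro j
    unfold WW
    rw [Nat.coprime_prod_right_iff]
    intro p hp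
    have hpp := (mem_PW.1 hp).2.1
    rw [Nat.coprime_comm, Nat.Prime.coprime_iff_not_dvd hpp]
    intro hdv
    apply (hρ p hp).1 j
    have h1 : a + (N + s + j * d) ≡ ρ p + (N + s + j * d) [MOD p] := (ha p hp).add_right _
    exact (Nat.modEq_zero_iff_dvd).1 (h1.symm.trans ((Nat.modEq_zero_iff_dvd).2 hdv))
  · push_cast
    have h1 : c * ff X ≤ c₂ / 8 * ff X := by
      have : 0 ≤ ff X := e6.2.1
      gcongr
    have h2 : (0 : ℝ) ≤ s := Nat.cast_nonneg s
    have h3 : 0 ≤ c₂ * ff X := hff0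
    linarith
  · have h1 : c * ff X ≤ c₂ / 8 * ff X := by
      have : 0 ≤ ff X := e6.2.1
      gcongr
    have h2 : (s : ℝ) + 1 ≤ N := by exact_mod_cast hsN
    have h3 : 3 * (N : ℝ) ≤ H := by
      have : 3 * N ≤ H := by omega
      exact_mod_cast this
    have h4 : ((K * d : ℕ) : ℝ) ≤ T / 64000 := by
      refine le_trans ?_ hKdr
      exact_mod_cast Nat.le_add_right _ _
    have h5 : T ≤ c₂ * ff X / 10 := by linarith
    push_cast at h4 ⊢
    linarith
  · intro j i hi1 hi2
    refine (hLlow j).trans ?_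
    obtain ⟨r, b, hrb⟩ := exists_shf i hi1 hi2
    refine (Nat.cast_le.2 (hblkL (j, r, b))).trans ?_
    apply Nat.cast_le.2
    apply card_le_card
    intro q hq3
    have hq := hblkG _ hq3
    rw [hG, mem_filter] at hq
    obtain ⟨hq1, hq2⟩ := hq
    rw [mem_filter]
    refine ⟨hq1, ?_⟩
    have h1 := (hρ q hq1).2.2 j r b hq3
    rw [hrb] at h1
    have h2 : (q : ℤ) ∣ (a : ℤ) - ρ q := (Nat.modEq_iff_dvd.1 (ha q hq1).symm)
    have e : (a : ℤ) + ((N + s + j * d : ℕ) : ℤ) + i = (a - ρ q) + (ρ q + (((N + s + j * d : ℕ) : ℤ) + i)) := by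
      ring
    rw [e]
    exact dvd_add h2 h1

end Pool.Agent.H526.IR
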